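import Pool.Agent.H76.GX.Targets

/-!
# GMSNP: pieces of a free amalgam
-/

set_option autoImplicit false
set_option linter.unusedVariables false

namespace Pool.Agent.H39.GX

open Pool.Agent.H68.BP Pool.Agent.H58.SF Pool.Agent.H53.GC Pool.Agent.H53.GR Pool.Agent.H53.GM
open Pool.Agent.H53.GX Pool.Agent.H76.GX
open Classical

theorem pf_FGL (hTPB : Pool.Agent.H53.GM.T_TPB) (hGLU : Pool.Agent.H53.GM.T_GLU)
    (hGL2 : Pool.Agent.H53.GM.T_GL2) : Pool.Agent.H76.GX.T_FGL := by
  intro τ N k F I S J p t W M M₁ M₂ B₁ B₂ b hyp hk hSI hA W' M' b' Q hJQ hp ht q hq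
  obtain ⟨⟨hRC, f, hf, hfr⟩, hqQ⟩ := hq
  refine ⟨hRC, ?_⟩
  set K : Set W := {x | ∃ w ∈ Q, x = b w} with hK
  let Mi : Bool → Str τ W := fun i => cond i M₁ M₂
  let B : Bool → Set W := fun i => cond i B₁ B₂
  let φ : W → W' := fun x => if h : ∃ w, x = b w then b' h.choose else b' ⟨0, by omega⟩
  have hφ : ∀ w, φ (b w) = b' w := by
    intro w
    have h : ∃ w', b w = b w' := ⟨w, rfl⟩
    have h1 : φ (b w) = b' h.choose := dif_pos h
    rw [h1]
    exact congrArg b' (hA.inj h.choose_spec).symm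
  have hBK : ∀ i j x, x ∈ B i → x ∈ B j → i ≠ j → x ∈ K := by
    intro i j x hi hj hij
    have key : x ∈ B₁ → x ∈ B₂ → x ∈ K := by
      intro h1 h2
      obtain ⟨v, hv, hx⟩ := hA.int x h1 h2
      exact ⟨rdp S v, hJQ v hv, hx⟩
    cases i <;> cases j
    · exact absurd rfl hij
    · exact key hj hi
    · exact key hi hj
    · exact absurd rfl hij
  have hM : ∀ (l : Fin τ.m) (z : Fin (τ.ar l) → W), M l z → ∃ i, Mi i l z := by
    intro l z hz
    rcases (hA.un l z).1 hz with h | h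
    · exact ⟨true, h⟩
    · exact ⟨false, h⟩
  have hMB : ∀ i (l : Fin τ.m) (z : Fin (τ.ar l) → W), Mi i l z → ∀ a, z a ∈ B i := by
    intro i l z hz a
    cases i
    · exact hA.s2 l z hz a
    · exact hA.s1 l z hz a
  have hroot : ∀ v, q.2 v ≠ none → f v ∈ K := by
    intro v hv
    obtain ⟨i, hi⟩ := Option.ne_none_iff_exists'.1 hv
    exact ⟨i, hqQ v i hi, hfr v i hi⟩
  have hpart : ∀ i, ∃ h : Fin N → W', IsHom (sub q.1 f (Mi i)) M' h ∧
      ∀ v, f v ∈ K → f v ∈ B i → h v = φ (f v) := by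
    intro i
    cases i
    · -- the part in `M₂`
      let ρ : Fin N → Option (Fin (k + k)) := fun v =>
        if h : ∃ w, f v = b w ∧ w ∈ Q ∧ w ∈ gs I S J then some h.choose else none
      have hρs : ∀ v w, ρ v = some w → f v = b w ∧ w ∈ Q ∧ w ∈ gs I S J := by
        intro v w hv
        by_cases h : ∃ w, f v = b w ∧ w ∈ Q ∧ w ∈ gs I S J
        · have h1 : ρ v = some h.choose := dif_pos h
          rw [h1] at hv
          have h2 : h.choose = w := Option.some.inj hv
          rw [← h2]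
          exact h.choose_spec
        · have h1 : ρ v = none := dif_neg h
          rw [h1] at hv
          exact absurd hv (by simp)
      have hρn : ∀ v, f v ∈ K → f v ∈ B false → ∃ w, ρ v = some w := by
        intro v hvK hvB
        obtain ⟨w, hw, hvw⟩ := hvK
        have hb : b w ∈ B₂ := by
          rw [← hvw]
          exact hvB
        have h : ∃ w, f v = b w ∧ w ∈ Q ∧ w ∈ gs I S J := ⟨w, hvw, hw, hA.r2 w hb⟩
        exact ⟨h.choose, dif_pos h⟩
      have hRC' : RC (sub q.1 f (Mi false)) ρ := by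
        refine hGL2 τ N W Bool (Fin (k + k)) (Fin (k + k)) Mi B K M q.1 f q.2
          (fun l => (hyp.ar l).1) hBK hM hMB hf hRC hroot false ρ ?_
        intro v h1 h2
        obtain ⟨w, hw⟩ := hρn v h1 h2
        rw [hw]
        exact Option.some_ne_none w
      have hmem : (sub q.1 f (Mi false), ρ) ∈ rse (gs I S J) (tp N M₂ b) :=
        ⟨⟨hRC', f, fun l z hz => hz.2, fun v w hv => (hρs v w hv).1⟩,
          fun v w hv => (hρs v w hv).2.2⟩
      rw [hA.t2] at hmem
      have hmem' : (sub q.1 f (Mi false), ρ) ∈ rse (Q ∩ gs I S J) t :=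
        ⟨hmem.1, fun v w hv => Finset.mem_inter.2 ⟨(hρs v w hv).2.1, (hρs v w hv).2.2⟩⟩
      obtain ⟨-, h, hh, hhr⟩ := ht hmem'
      refine ⟨h, hh, ?_⟩
      intro v h1 h2
      obtain ⟨w, hw⟩ := hρn v h1 h2
      rw [hhr v w hw, (hρs v w hw).1, hφ]
    · -- the part in `M₁`
      let ρ : Fin N → Option (Fin k) := fun v =>
        if h : ∃ j, f v = b (rdp (S ∩ J) j) ∧ rdp (S ∩ J) j ∈ Q then some h.choose else none
      have hρs : ∀ v j, ρ v = some j → f v = b (rdp (S ∩ J) j) ∧ rdp (S ∩ J) j ∈ Q := by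
        intro v w hv
        by_cases h : ∃ j, f v = b (rdp (S ∩ J) j) ∧ rdp (S ∩ J) j ∈ Q
        · have h1 : ρ v = some h.choose := dif_pos h
          rw [h1] at hv
          have h2 : h.choose = w := Option.some.inj hv
          rw [← h2]
          exact h.choose_spec
        · have h1 : ρ v = none := dif_neg h
          rw [h1] at hv
          exact absurd hv (by simp)
      have hρn : ∀ v, f v ∈ K → f v ∈ B true → ∃ j, ρ v = some j := by
        intro v hvK hvB
        obtain ⟨w, hw, hvw⟩ := hvK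
        have hb : b w ∈ B₁ := by
          rw [← hvw]
          exact hvB
        obtain ⟨j, hj⟩ := hA.r1 w hb
        have h : ∃ j, f v = b (rdp (S ∩ J) j) ∧ rdp (S ∩ J) j ∈ Q := by
          refine ⟨j, ?_, ?_⟩
          · rw [← hj]
            exact hvw
          · rw [← hj]
            exact hw
        exact ⟨h.choose, dif_pos h⟩
      have hRC' : RC (sub q.1 f (Mi true)) ρ := by
        refine hGL2 τ N W Bool (Fin (k + k)) (Fin k) Mi B K M q.1 f q.2
          (fun l => (hyp.ar l).1) hBK hM hMB hf hRC hroot true ρ ?_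
        intro v h1 h2
        obtain ⟨w, hw⟩ := hρn v h1 h2
        rw [hw]
        exact Option.some_ne_none w
      have hmem : (sub q.1 f (Mi true), ρ) ∈ tp N M₁ (fun v => b (rdp (S ∩ J) v)) :=
        ⟨hRC', f, fun l z hz => hz.2, fun v w hv => (hρs v w hv).1⟩
      rw [hA.t1] at hmem
      obtain ⟨-, h, hh, hhr⟩ := hp _ hmem (fun v w hv => (hρs v w hv).2)
      refine ⟨h, hh, ?_⟩
      intro v h1 h2
      obtain ⟨w, hw⟩ := hρn v h1 h2
      have h3 : h v = b' (rdp (S ∩ J) w) := hhr v w hw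
      rw [h3, (hρs v w hw).1, hφ]
  obtain ⟨h, hh, hhr⟩ := hGLU τ N W W' Bool Mi B K M M' φ q.1 f hBK hM hMB hf hpart
  refine ⟨h, hh, ?_⟩
  intro v i hv
  have h1 : f v ∈ K := ⟨i, hqQ v i hv, hfr v i hv⟩
  rw [hhr v h1, hfr v i hv, hφ]

end Pool.Agent.H39.GX
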